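import Pool.Agent.MP_3225a3_pr.Final

open MixBurnside

namespace Pool.Agent.Results.MP_3225a3_pr.MixingOrder

/-- The mixing time of the simple random walk on the free Burnside group `B(3,d)` is of order
`d ^ 3 / log d`, with the same constants for all levels `ε` in `(0,1)`. -/
theorem result : ∃ c C : ℝ, 0 < c ∧ 0 < C ∧ ∀ ε : ℝ, 0 < ε → ε < 1 →
    ∀ᶠ d : ℕ in Filter.atTop, c * ((d : ℝ) ^ 3 / Real.log d) ≤ tmix d ε ∧
      (tmix d ε : ℝ) ≤ C * ((d : ℝ) ^ 3 / Real.log d) :=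
  MixBurnside.main

end Pool.Agent.Results.MP_3225a3_pr.MixingOrder
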